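import Pool.Agent.Q272.Ic.Step

/-!
Every icube in `ℤ^8` extends to an `8`-icube.
-/

namespace Pool.Agent.Results.MP_710d87_nt.EveryIcubeExtends

open Matrix

/-- `A` is a `k`-icube in `ℤ^n` of norm `l > 0`: the columns of the integer `n × k` matrix `A`
(with `1 ≤ k ≤ n`) are pairwise orthogonal and have squared length `l`, i.e. `Aᵀ A = l I`. -/
def IsIcube (n k : ℕ) (l : ℤ) (A : Matrix (Fin n) (Fin k) ℤ) : Prop :=
  1 ≤ k ∧ k ≤ n ∧ 0 < l ∧ Aᵀ * A = l • (1 : Matrix (Fin k) (Fin k) ℤ)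

/-- For every `1 ≤ k ≤ 8`, every `k`-icube in `ℤ^8` of norm `l` extends to an `8`-icube of norm
`l`; the given columns can even be taken to be the first `k` columns, in the given order. -/
theorem result (k : ℕ) (l : ℤ) (A : Matrix (Fin 8) (Fin k) ℤ) (hA : IsIcube 8 k l A) :
    ∃ W : Matrix (Fin 8) (Fin 8) ℤ, IsIcube 8 8 l W ∧
      ∀ (i : Fin 8) (j : Fin k), W i (Fin.castLE hA.2.1 j) = A i j := by
  obtain ⟨hk1, hk8, hl, hAA⟩ := hA
  obtain ⟨w, hw1, hw2⟩ := Q272.Ic.extend hl hk1 hk8 (fun j i => A i j) (by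
    intro i j
    have h := congrFun (congrFun hAA i) j
    rw [Matrix.mul_apply, Matrix.smul_apply, Matrix.one_apply] at h
    rw [dotProduct]
    simp only [Matrix.transpose_apply] at h
    rw [h]
    split_ifs <;> simp)
  refine ⟨Matrix.of fun i j => w j i, ⟨by norm_num, le_rfl, hl, ?_⟩, ?_⟩
  · ext i j
    rw [Matrix.mul_apply, Matrix.smul_apply, Matrix.one_apply]
    have h := hw1 i j
    rw [dotProduct] at h
    simp only [Matrix.transpose_apply, Matrix.of_apply]
    rw [h]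
    split_ifs <;> simp
  · intro i j
    rw [Matrix.of_apply, hw2 j]

end Pool.Agent.Results.MP_710d87_nt.EveryIcubeExtends
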